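import Pool.Agent.N343.AS.Stm

set_option autoImplicit false

/-! # Project AS, step RIE: Riemann's rearrangement theorem in dimension one -/

open Filter Topology Finset

namespace Pool.Agent.N434.ASR

open Pool.Agent.N343.AS

section

variable (x y : ℕ → ℝ) (p : ℝ)

/-- partial sums -/
noncomputable def ps (x : ℕ → ℝ) (n : ℕ) : ℝ := ∑ i ∈ range n, x i

/-- the numbers of the terms of the two sequences which are used -/
noncomputable def uv : ℕ → ℕ × ℕ
  | 0 => (0, 0)
  | n + 1 => if ps x (uv n).1 + ps y (uv n).2 ≤ p then ((uv n).1 + 1, (uv n).2)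
      else ((uv n).1, (uv n).2 + 1)

/-- the current sum -/
noncomputable def S (n : ℕ) : ℝ := ps x (uv x y p n).1 + ps y (uv x y p n).2

theorem uv_le {n : ℕ} (h : S x y p n ≤ p) :
    uv x y p (n + 1) = ((uv x y p n).1 + 1, (uv x y p n).2) := by
  rw [uv]
  exact if_pos h

theorem uv_gt {n : ℕ} (h : ¬ S x y p n ≤ p) :
    uv x y p (n + 1) = ((uv x y p n).1, (uv x y p n).2 + 1) := by
  rw [uv]
  exact if_neg h

theorem S_le {n : ℕ} (h : S x y p n ≤ p) : S x y p (n + 1) = S x y p n + x (uv x y p n).1 := by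
  unfold S
  rw [uv_le x y p h]
  simp only [ps, sum_range_succ]
  ring

theorem S_gt {n : ℕ} (h : ¬ S x y p n ≤ p) : S x y p (n + 1) = S x y p n + y (uv x y p n).2 := by
  unfold S
  rw [uv_gt x y p h]
  simp only [ps, sum_range_succ]
  ring

theorem u_step (n : ℕ) : (uv x y p n).1 ≤ (uv x y p (n + 1)).1 ∧
    (uv x y p (n + 1)).1 ≤ (uv x y p n).1 + 1 := by
  by_cases h : S x y p n ≤ p
  · rw [uv_le x y p h]
    simp
  · rw [uv_gt x y p h]
    simp

theorem v_step (n : ℕ) : (uv x y p n).2 ≤ (uv x y p (n + 1)).2 ∧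
    (uv x y p (n + 1)).2 ≤ (uv x y p n).2 + 1 := by
  by_cases h : S x y p n ≤ p
  · rw [uv_le x y p h]
    simp
  · rw [uv_gt x y p h]
    simp

theorem u_mono : Monotone fun n => (uv x y p n).1 :=
  monotone_nat_of_le_succ fun n => (u_step x y p n).1

theorem v_mono : Monotone fun n => (uv x y p n).2 :=
  monotone_nat_of_le_succ fun n => (v_step x y p n).1

variable {x y p}

theorem hitU (hy : Tendsto (ps y) atTop atBot) (n : ℕ) : ∃ m, n ≤ m ∧ S x y p m ≤ p := by
  by_contra hcon
  push Not at hcon
  have h1 : ∀ k, uv x y p (n + k) = ((uv x y p n).1, (uv x y p n).2 + k) := by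
    intro k
    induction k with
    | zero => rfl
    | succ k ih =>
      rw [← add_assoc, uv_gt x y p (not_le.2 (hcon (n + k) (by omega))), ih]
      rfl
  obtain ⟨N, hN⟩ := eventually_atTop.1 (hy.eventually (eventually_lt_atBot (p - ps x (uv x y p n).1)))
  have h2 := hcon (n + N) (by omega)
  have h3 := hN ((uv x y p n).2 + N) (by omega)
  unfold S at h2
  rw [h1] at h2
  simp only at h2
  linarith

theorem hitV (hx : Tendsto (ps x) atTop atTop) (n : ℕ) : ∃ m, n ≤ m ∧ ¬ S x y p m ≤ p := by
  by_contra hcon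
  push Not at hcon
  have h1 : ∀ k, uv x y p (n + k) = ((uv x y p n).1 + k, (uv x y p n).2) := by
    intro k
    induction k with
    | zero => rfl
    | succ k ih =>
      rw [← add_assoc, uv_le x y p (hcon (n + k) (by omega)), ih]
      rfl
  obtain ⟨N, hN⟩ := eventually_atTop.1 (hx.eventually (eventually_gt_atTop (p - ps y (uv x y p n).2)))
  have h2 := hcon (n + N) (by omega)
  have h3 := hN ((uv x y p n).1 + N) (by omega)
  unfold S at h2
  rw [h1] at h2
  simp only at h2
  linarith

theorem u_unb (hy : Tendsto (ps y) atTop atBot) (b : ℕ) : ∃ n, b ≤ (uv x y p n).1 := by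
  induction b with
  | zero => exact ⟨0, Nat.zero_le _⟩
  | succ b ih =>
    obtain ⟨n, hn⟩ := ih
    obtain ⟨m, hm, hS⟩ := hitU (x := x) (p := p) hy n
    refine ⟨m + 1, ?_⟩
    rw [uv_le x y p hS]
    have := u_mono x y p hm
    simp only at this ⊢
    omega

theorem v_unb (hx : Tendsto (ps x) atTop atTop) (b : ℕ) : ∃ n, b ≤ (uv x y p n).2 := by
  induction b with
  | zero => exact ⟨0, Nat.zero_le _⟩
  | succ b ih =>
    obtain ⟨n, hn⟩ := ih
    obtain ⟨m, hm, hS⟩ := hitV (y := y) (p := p) hx n
    refine ⟨m + 1, ?_⟩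
    rw [uv_gt x y p hS]
    have := v_mono x y p hm
    simp only at this ⊢
    omega

theorem u_hit (hy : Tendsto (ps y) atTop atBot) (k : ℕ) :
    ∃ i, (uv x y p i).1 = k ∧ S x y p i ≤ p := by
  classical
  have hex : ∃ i, k < (uv x y p i).1 := by
    obtain ⟨n, hn⟩ := u_unb (x := x) (p := p) hy (k + 1)
    exact ⟨n, hn⟩
  have h1 := Nat.find_spec hex
  have h2 : Nat.find hex ≠ 0 := by
    intro h
    rw [h] at h1
    simp [uv] at h1
  obtain ⟨i, hi⟩ := Nat.exists_eq_succ_of_ne_zero h2
  have h3 : ¬ k < (uv x y p i).1 := Nat.find_min hex (by omega)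
  rw [hi] at h1
  have h4 := u_step x y p i
  have h5 : (uv x y p i.succ).1 = (uv x y p (i + 1)).1 := rfl
  refine ⟨i, by omega, ?_⟩
  by_contra hS
  rw [h5, uv_gt x y p hS] at h1
  exact h3 h1

theorem v_hit (hx : Tendsto (ps x) atTop atTop) (k : ℕ) :
    ∃ i, (uv x y p i).2 = k ∧ ¬ S x y p i ≤ p := by
  classical
  have hex : ∃ i, k < (uv x y p i).2 := by
    obtain ⟨n, hn⟩ := v_unb (y := y) (p := p) hx (k + 1)
    exact ⟨n, hn⟩
  have h1 := Nat.find_spec hex
  have h2 : Nat.find hex ≠ 0 := by
    intro h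
    rw [h] at h1
    simp [uv] at h1
  obtain ⟨i, hi⟩ := Nat.exists_eq_succ_of_ne_zero h2
  have h3 : ¬ k < (uv x y p i).2 := Nat.find_min hex (by omega)
  rw [hi] at h1
  have h4 := v_step x y p i
  have h5 : (uv x y p i.succ).2 = (uv x y p (i + 1)).2 := rfl
  refine ⟨i, by omega, ?_⟩
  intro hS
  rw [h5, uv_le x y p hS] at h1
  exact h3 h1

end

theorem main : S_RIE := by
  intro a ha hP hM p
  classical
  have infP : (setOf fun n => 0 ≤ a n).Infinite := by
    intro hfin
    apply hP
    apply summable_of_ne_finset_zero (s := hfin.toFinset)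
    intro n hn
    have h1 : ¬ 0 ≤ a n := fun h => hn (hfin.mem_toFinset.2 h)
    exact max_eq_right (not_le.1 h1).le
  have infM : (setOf fun n => a n < 0).Infinite := by
    intro hfin
    apply hM
    apply summable_of_ne_finset_zero (s := hfin.toFinset)
    intro n hn
    have h1 : ¬ a n < 0 := fun h => hn (hfin.mem_toFinset.2 h)
    apply max_eq_right
    linarith [not_lt.1 h1]
  obtain ⟨e, he⟩ : ∃ e, e = Nat.nth fun n => 0 ≤ a n := ⟨_, rfl⟩
  obtain ⟨f, hf⟩ : ∃ f, f = Nat.nth fun n => a n < 0 := ⟨_, rfl⟩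
  have e_inj : Function.Injective e := by rw [he]; exact Nat.nth_injective infP
  have f_inj : Function.Injective f := by rw [hf]; exact Nat.nth_injective infM
  have e_mem : ∀ n, 0 ≤ a (e n) := by rw [he]; exact fun n => Nat.nth_mem_of_infinite infP n
  have f_mem : ∀ n, a (f n) < 0 := by rw [hf]; exact fun n => Nat.nth_mem_of_infinite infM n
  have e_ran : ∀ n, 0 ≤ a n → ∃ k, e k = n := by
    intro n hn
    have h1 : n ∈ Set.range e := by
      rw [he, Nat.range_nth_of_infinite infP]
      exact hn
    exact h1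
  have f_ran : ∀ n, a n < 0 → ∃ k, f k = n := by
    intro n hn
    have h1 : n ∈ Set.range f := by
      rw [hf, Nat.range_nth_of_infinite infM]
      exact hn
    exact h1
  have hx : Tendsto (ps fun n => a (e n)) atTop atTop := by
    apply (not_summable_iff_tendsto_nat_atTop_of_nonneg e_mem).1
    intro hs
    apply hP
    rw [← e_inj.summable_iff]
    · refine hs.congr fun n => ?_
      exact (max_eq_left (e_mem n)).symm
    · intro n hn
      apply max_eq_right
      by_contra h
      exact hn (e_ran n (not_le.1 h).le)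
  have hy : Tendsto (ps fun n => a (f n)) atTop atBot := by
    have h1 : Tendsto (fun n => ∑ i ∈ range n, -a (f i)) atTop atTop := by
      apply (not_summable_iff_tendsto_nat_atTop_of_nonneg
        (fun n => by linarith [f_mem n])).1
      intro hs
      apply hM
      rw [← f_inj.summable_iff]
      · refine hs.congr fun n => ?_
        exact (max_eq_left (by linarith [f_mem n])).symm
      · intro n hn
        apply max_eq_right
        by_contra h
        exact hn (f_ran n (by linarith [not_le.1 h]))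
    have h2 := tendsto_neg_atTop_atBot.comp h1
    refine h2.congr fun n => ?_
    simp [ps, sum_neg_distrib]
  obtain ⟨idx, hidx⟩ : ∃ idx : ℕ → ℕ, idx = fun n =>
    if S (fun n => a (e n)) (fun n => a (f n)) p n ≤ p then
      e (uv (fun n => a (e n)) (fun n => a (f n)) p n).1 else
      f (uv (fun n => a (e n)) (fun n => a (f n)) p n).2 := ⟨_, rfl⟩
  obtain ⟨T, hT⟩ : ∃ T, T = S (fun n => a (e n)) (fun n => a (f n)) p := ⟨_, rfl⟩
  obtain ⟨w, hw⟩ : ∃ w, w = uv (fun n => a (e n)) (fun n => a (f n)) p := ⟨_, rfl⟩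
  have umono : Monotone fun n => (w n).1 := by rw [hw]; exact u_mono _ _ _
  have vmono : Monotone fun n => (w n).2 := by rw [hw]; exact v_mono _ _ _
  have idx1 : ∀ n, T n ≤ p → idx n = e (w n).1 := by
    intro n h
    rw [hidx, hw]
    rw [hT] at h
    exact if_pos h
  have idx2 : ∀ n, ¬ T n ≤ p → idx n = f (w n).2 := by
    intro n h
    rw [hidx, hw]
    rw [hT] at h
    exact if_neg h
  have T0 : T 0 = 0 := by rw [hT]; simp [S, uv, ps]
  have Tsucc : ∀ n, T (n + 1) = T n + a (idx n) := by
    intro n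
    by_cases h : T n ≤ p
    · rw [idx1 n h, hT, hw]
      rw [hT] at h
      exact S_le _ _ _ h
    · rw [idx2 n h, hT, hw]
      rw [hT] at h
      exact S_gt _ _ _ h
  have Tsum : ∀ n, ∑ i ∈ range n, a (idx i) = T n := by
    intro n
    induction n with
    | zero => rw [sum_range_zero, T0]
    | succ n ih => rw [sum_range_succ, ih, Tsucc]
  have inj0 : ∀ i j, i < j → idx i ≠ idx j := by
    intro i j hij h
    by_cases h1 : T i ≤ p
    · by_cases h2 : T j ≤ p
      · rw [idx1 i h1, idx1 j h2] at h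
        have h3 := e_inj h
        have h4 : (w (i + 1)).1 = (w i).1 + 1 := by
          rw [hw]
          rw [hT] at h1
          rw [uv_le _ _ _ h1]
        have h5 := umono (show i + 1 ≤ j by omega)
        simp only at h5
        omega
      · rw [idx1 i h1, idx2 j h2] at h
        have h3 := e_mem (w i).1
        have h4 := f_mem (w j).2
        rw [h] at h3
        linarith
    · by_cases h2 : T j ≤ p
      · rw [idx2 i h1, idx1 j h2] at h
        have h3 := e_mem (w j).1
        have h4 := f_mem (w i).2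
        rw [h] at h4
        linarith
      · rw [idx2 i h1, idx2 j h2] at h
        have h3 := f_inj h
        have h4 : (w (i + 1)).2 = (w i).2 + 1 := by
          rw [hw]
          rw [hT] at h1
          rw [uv_gt _ _ _ h1]
        have h5 := vmono (show i + 1 ≤ j by omega)
        simp only at h5
        omega
  have inj : Function.Injective idx := by
    intro i j h
    rcases lt_trichotomy i j with h1 | h1 | h1
    · exact absurd h (inj0 i j h1)
    · exact h1
    · exact absurd h.symm (inj0 j i h1)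
  have surj : Function.Surjective idx := by
    intro n
    by_cases hn : 0 ≤ a n
    · obtain ⟨k, hk⟩ := e_ran n hn
      obtain ⟨i, hi1, hi2⟩ := u_hit (x := fun n => a (e n)) (p := p) hy k
      refine ⟨i, ?_⟩
      rw [idx1 i (by rw [hT]; exact hi2), hw, hi1, hk]
    · obtain ⟨k, hk⟩ := f_ran n (not_le.1 hn)
      obtain ⟨i, hi1, hi2⟩ := v_hit (y := fun n => a (f n)) (p := p) hx k
      refine ⟨i, ?_⟩
      rw [idx2 i (by rw [hT]; exact hi2), hw, hi1, hk]
  refine ⟨Equiv.ofBijective idx ⟨inj, surj⟩, ?_⟩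
  have hgoal : Tendsto T atTop (𝓝 p) := by
    rw [Metric.tendsto_atTop]
    intro ε hε
    have h1 : Tendsto (fun n => a (idx n)) atTop (𝓝 0) := ha.comp inj.nat_tendsto_atTop
    obtain ⟨N1, hN1⟩ := Metric.tendsto_atTop.1 h1 (ε / 2) (by positivity)
    have hsmall : ∀ n, N1 ≤ n → |a (idx n)| < ε / 2 := by
      intro n hn
      have := hN1 n hn
      rwa [Real.dist_eq, sub_zero] at this
    have hsgn1 : ∀ n, T n ≤ p → 0 ≤ a (idx n) := by
      intro n h
      rw [idx1 n h]
      exact e_mem _
    have hsgn2 : ∀ n, ¬ T n ≤ p → a (idx n) < 0 := by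
      intro n h
      rw [idx2 n h]
      exact f_mem _
    -- a crossing
    obtain ⟨m, hm1, hm2⟩ : ∃ m, N1 ≤ m ∧ |T m - p| ≤ ε / 2 := by
      obtain ⟨n0, hn0, hn0'⟩ := hitU (x := fun n => a (e n)) (p := p) hy N1
      rw [← hT] at hn0'
      have hex : ∃ m, n0 ≤ m ∧ ¬ T m ≤ p := by
        obtain ⟨m, h2, h3⟩ := hitV (y := fun n => a (f n)) (p := p) hx n0
        exact ⟨m, h2, by rw [hT]; exact h3⟩
      obtain ⟨h2, h3⟩ := Nat.find_spec hex
      have h4 : Nat.find hex ≠ n0 := by
        intro h
        rw [h] at h3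
        exact h3 hn0'
      obtain ⟨i, hi⟩ := Nat.exists_eq_succ_of_ne_zero (show Nat.find hex ≠ 0 by omega)
      have h5 : ¬ (n0 ≤ i ∧ ¬ T i ≤ p) := Nat.find_min hex (by omega)
      have h6 : T i ≤ p := by
        by_contra h
        exact h5 ⟨by omega, h⟩
      rw [hi, Nat.succ_eq_add_one, Tsucc] at h3
      have h7 := hsmall i (by omega)
      have h8 := (abs_lt.1 h7).2
      refine ⟨i + 1, by omega, ?_⟩
      rw [Tsucc, abs_le]
      constructor
      · linarith [not_le.1 h3]
      · linarith
    refine ⟨m, fun n hn => ?_⟩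
    have hall : ∀ k, |T (m + k) - p| ≤ ε / 2 := by
      intro k
      induction k with
      | zero => exact hm2
      | succ k ih =>
        rw [← add_assoc, Tsucc]
        have h2 := hsmall (m + k) (by omega)
        rw [abs_lt] at h2
        rw [abs_le] at ih ⊢
        by_cases h3 : T (m + k) ≤ p
        · have h4 := hsgn1 _ h3
          constructor <;> linarith
        · have h4 := hsgn2 _ h3
          have h5 := not_le.1 h3
          constructor <;> linarith
    obtain ⟨k, rfl⟩ := Nat.exists_eq_add_of_le hn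
    rw [Real.dist_eq]
    linarith [hall k]
  refine hgoal.congr fun n => ?_
  rw [← Tsum]
  rfl

end Pool.Agent.N434.ASR
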